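import Pool.Agent.W_7d29a1_h4g.LAinst

/-!
Track G (MP_7d29a1_pr), row 624: from luck amplification (a bounded density) to a probability. (helper36)
-/

namespace Pool.Agent.W_7d29a1_h36b

open MeasureTheory ProbabilityTheory Filter Topology Pool.Agent.W_7d29a1_F Pool.Agent.W_7d29a1_h4g

variable {μ : Measure ℝ} [IsProbabilityMeasure μ] {s : ℝ}

/-- If the logarithm of a sum of path weights has a mean `≥ - a U`, a second moment of its positive part `≤ M U ^ 2`, and
fluctuates by `c U` with probability `c`, then it is `≥ K U` with a probability bounded below. -/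
theorem la_prob (hEM : Pool.Agent.W_7d29a1_h47.EM μ) (hnd : Pool.Agent.W_7d29a1_h47.Nondeg μ) {a c M K : ℝ}
    (ha : 0 ≤ a) (hc : 0 < c) (hM : 0 < M) (hK : 0 ≤ K) :
    ∃ p U₀ : ℝ, 0 < p ∧ ∀ (S : Set Pt) (G : Env → ℝ), Poly S G → (∀ η, 0 < G η) → ∀ U : ℝ, U₀ ≤ U →
      c ≤ (law μ).real {η | c * U ≤ |Real.log (G η) - ∫ ξ, Real.log (G ξ) ∂(law μ)|} →
      -(a * U) ≤ ∫ η, Real.log (G η) ∂(law μ) →
      ∫ η, (max (Real.log (G η)) 0) ^ 2 ∂(law μ) ≤ M * U ^ 2 →
      p ≤ (law μ).real {η | K * U ≤ Real.log (G η)} := by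
  obtain ⟨U₀, D₀, hLA⟩ := la_law (LAfor_all hEM hnd) hc (K := K + a + 1) (by linarith)
  obtain ⟨D, hD⟩ : ∃ D, D = max D₀ 1 := ⟨_, rfl⟩
  have hD1 : 1 ≤ D := by rw [hD]; exact le_max_right _ _
  have hD0 : D₀ ≤ D := by rw [hD]; exact le_max_left _ _
  have hDpos : 0 < D := by linarith
  refine ⟨1 / (D ^ 2 * M), max U₀ 1, by positivity, fun S G hP hG U hU hfl hmean hsq => ?_⟩
  have hU1 : 1 ≤ U := (le_max_right _ _).trans hU
  have hUpos : 0 < U := by linarith
  obtain ⟨f, hf1, hf2, hf3, hf4, -, hf6⟩ := hLA S G hP hG U ((le_max_left _ _).trans hU) hfl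
  have hS : Sub fun η => Real.log (G η) := hP.sub_log hG
  have hSf : Sub f := ⟨hf1, ∅, D, hDpos.le, fun η => by
    rw [Finset.sum_empty, add_zero, mul_one, abs_of_nonneg (hf2 η)]
    exact (hf3 η).trans hD0⟩
  set B : Set Env := {η | K * U ≤ Real.log (G η)} with hB
  have hBm : MeasurableSet B := measurableSet_le measurable_const hS.1
  have hSm : Sub fun η => max (Real.log (G η)) 0 := hS.max (Sub.const 0)
  -- pointwise bound
  have hpt : ∀ η, f η * Real.log (G η) ≤ f η * (K * U)
      + (1 / (2 * M * U) * (max (Real.log (G η)) 0) ^ 2 + D ^ 2 * M * U / 2 * B.indicator (fun _ => (1:ℝ)) η) := by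
    intro η
    by_cases hη : η ∈ B
    · rw [Set.indicator_of_mem hη]
      have hKU : 0 ≤ K * U := by positivity
      have hL : K * U ≤ Real.log (G η) := hη
      have hL0 : 0 ≤ Real.log (G η) := hKU.trans hL
      rw [max_eq_left hL0]
      set L := Real.log (G η)
      have h1 : f η * L ≤ D * L := mul_le_mul_of_nonneg_right ((hf3 η).trans hD0) hL0
      have h2 : 0 ≤ f η * (K * U) := mul_nonneg (hf2 η) hKU
      have h3 : D * L ≤ 1 / (2 * M * U) * L ^ 2 + D ^ 2 * M * U / 2 * 1 := by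
        have h4 : 1 / (2 * M * U) * L ^ 2 + D ^ 2 * M * U / 2 * 1 - D * L
            = (L - D * M * U) ^ 2 / (2 * M * U) := by
          field_simp; ring
        have h5 : 0 ≤ (L - D * M * U) ^ 2 / (2 * M * U) := by positivity
        linarith
      linarith
    · rw [Set.indicator_of_notMem hη]
      have hL : Real.log (G η) ≤ K * U := by
        have : ¬ (K * U ≤ Real.log (G η)) := hη
        exact (not_le.1 this).le
      have h1 := mul_le_mul_of_nonneg_left hL (hf2 η)
      have h2 : 0 ≤ 1 / (2 * M * U) * (max (Real.log (G η)) 0) ^ 2 := by positivity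
      linarith
  have hi1 : Integrable (fun η => f η * Real.log (G η)) (law μ) := Sub.mul_integrable hEM hSf hS
  have hi2 : Integrable (fun η => f η * (K * U)) (law μ) := (Sub.integrable hEM hSf).mul_const _
  have hi3 : Integrable (fun η => 1 / (2 * M * U) * (max (Real.log (G η)) 0) ^ 2) (law μ) :=
    (Sub.sq_integrable hEM hSm).const_mul _
  have hi4 : Integrable (fun η => D ^ 2 * M * U / 2 * B.indicator (fun _ => (1:ℝ)) η) (law μ) :=
    ((integrable_const (1:ℝ)).indicator hBm).const_mul _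
  have hi34 : Integrable (fun η => 1 / (2 * M * U) * (max (Real.log (G η)) 0) ^ 2
      + D ^ 2 * M * U / 2 * B.indicator (fun _ => (1:ℝ)) η) (law μ) := hi3.add hi4
  have hi234 : Integrable (fun η => f η * (K * U) + (1 / (2 * M * U) * (max (Real.log (G η)) 0) ^ 2
      + D ^ 2 * M * U / 2 * B.indicator (fun _ => (1:ℝ)) η)) (law μ) := hi2.add hi34
  have hint := integral_mono hi1 hi234 hpt
  have e3 : ∫ η, D ^ 2 * M * U / 2 * B.indicator (fun _ => (1:ℝ)) η ∂(law μ)
      = D ^ 2 * M * U / 2 * (law μ).real B := by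
    rw [integral_const_mul, integral_indicator_const _ hBm, smul_eq_mul, mul_one]
  rw [integral_add hi2 hi34, integral_add hi3 hi4, integral_mul_const, hf4, one_mul, integral_const_mul, e3] at hint
  have h1 : 1 / (2 * M * U) * ∫ η, (max (Real.log (G η)) 0) ^ 2 ∂(law μ) ≤ U / 2 := by
    calc 1 / (2 * M * U) * ∫ η, (max (Real.log (G η)) 0) ^ 2 ∂(law μ) ≤ 1 / (2 * M * U) * (M * U ^ 2) :=
          mul_le_mul_of_nonneg_left hsq (by positivity)
      _ = U / 2 := by field_simp
  have h2 : U / 2 ≤ D ^ 2 * M * U / 2 * (law μ).real B := by linarith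
  rw [div_le_iff₀ (by positivity)]
  have h3 : U / 2 * 1 ≤ U / 2 * ((law μ).real B * (D ^ 2 * M)) := by
    calc U / 2 * 1 = U / 2 := mul_one _
      _ ≤ D ^ 2 * M * U / 2 * (law μ).real B := h2
      _ = U / 2 * ((law μ).real B * (D ^ 2 * M)) := by ring
  exact le_of_mul_le_mul_left h3 (by positivity)

end Pool.Agent.W_7d29a1_h36b
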